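import Pool.Agent.H32.MZ.Fin
import Pool.Agent.D8.DFin
import Pool.Agent.SK.Malle8

/-!
# Malle's conjecture for 8T8, 8T28, 8T29 and the dihedral group of order 16 in its regular
representation, over every number field
-/

set_option autoImplicit false

namespace Pool.Agent.Results.MP_a9b340_nt.MalleAll

open Pool.Agent.H32.MA Pool.Agent.H32.MZ

theorem result :
    (MulAction.IsPretransitive T8 (Fin 8) ∧ mInd T8 = 3) ∧
    (MulAction.IsPretransitive T28 (Fin 8) ∧ mInd T28 = 2) ∧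
    (MulAction.IsPretransitive T29 (Fin 8) ∧ mInd T29 = 2) ∧
    (MulAction.IsPretransitive D8 (Fin 16) ∧ mInd D8 = 8) ∧
    ∀ (k : Type) [Field k] [NumberField k],
      (bM k T8 = 1 ∧ MalleK k T8) ∧ (bM k T28 = 3 ∧ MalleK k T28) ∧
      (bM k T29 = 3 ∧ MalleK k T29) ∧ (bM k D8 = 3 ∧ MalleK k D8) :=
  q1_of (fun k _ _ => Pool.Agent.SK.malle8 k) (fun k _ _ => Pool.Agent.D8.end_hom k)

end Pool.Agent.Results.MP_a9b340_nt.MalleAll
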